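import Pool.Agent.Helper85.BP.Defs

/-!
# Sharp Pitt inequality for all real exponents: definitions (MP_3dd6d4_an, helper72)
-/

set_option autoImplicit false

open MeasureTheory Complex FourierTransform Filter Topology
open scoped ENNReal NNReal ComplexConjugate

noncomputable section

namespace Helper72.BQ

open Helper72.BA Helper85.BP

/-- `Γ(s)/Γ(1-s)`, complex `s`. -/
def As (s : ℂ) : ℂ := Complex.Gamma s / Complex.Gamma (1 - s)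

/-- `A_p = Γ(1/p)/Γ(1-1/p)`. -/
def Ap (p : ℝ) : ℝ := Real.Gamma (1 / p) / Real.Gamma (1 - 1 / p)

/-- `∫ W(τ) |G(1/K + iβτ/K)|² dτ` -/
def cW (K : ℕ) (β : ℝ) (W : ℝ → ℝ) : ℝ :=
  ∫ τ, W τ * ‖Gx (((1 / (K:ℝ) : ℝ) : ℂ) + I * ((β * τ / K : ℝ) : ℂ))‖ ^ 2

/-- `r(ξ,η) = (1/K) (log|ξ| - log|η|)` -/
def rk (K : ℕ) (ξ η : ℂ) : ℝ := (1 / (K:ℝ)) * (Real.log ‖ξ‖ - Real.log ‖η‖)

/-- `|ξ|^{-2} Ψ(ξ)^{2K}` on the annulus -/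
def HH (c1 c2 : ℝ) (Ψ : ℂ → ℝ) (K : ℕ) (ξ : ℂ) : ℝ≥0∞ :=
  (Ann c1 c2).indicator (fun ξ => ENNReal.ofReal ((‖ξ‖ ^ 2)⁻¹ * Ψ ξ ^ (2 * K))) ξ

end Helper72.BQ
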